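import Pool.Agent.helper63.NU.Defs3

set_option autoImplicit false
set_option linter.all false

/-! Module R2, part c: an abstract lemma on the entropy. -/

open MeasureTheory Filter Topology Set
open scoped ENNReal

noncomputable section

namespace Pool.Agent.helper63.NU

namespace R2aux

section

variable {X : Type*} [MeasurableSpace X] {μ : Measure X} 

def vv (f : X → ℝ) (ε : ℝ) (x : X) : ℝ := Real.sqrt (f x ^ 2 + ε ^ 2)

theorem vv_sq (f : X → ℝ) (ε : ℝ) (x : X) : vv f ε x ^ 2 = f x ^ 2 + ε ^ 2 :=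
  Real.sq_sqrt (by positivity)

theorem tend_sq {u : X → ℝ} (hu : MemLp u 2 μ) {f : ℕ → X → ℝ} (hf : ∀ i, MemLp (f i) 2 μ)
    (hlim : Tendsto (fun i => ∫ x, (f i x - u x) ^ 2 ∂μ) atTop (𝓝 0)) :
    Tendsto (fun i => ∫ x, (f i x) ^ 2 ∂μ) atTop (𝓝 (∫ x, u x ^ 2 ∂μ)) := by
  have hu2 : Integrable (fun x => u x ^ 2) μ := hu.integrable_sq
  have hf2 : ∀ i, Integrable (fun x => f i x ^ 2) μ := fun i => (hf i).integrable_sq
  have hd2 : ∀ i, Integrable (fun x => (f i x - u x) ^ 2) μ := fun i =>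
    ((hf i).sub hu).integrable_sq
  set A := ∫ x, u x ^ 2 ∂μ with hA
  have hA0 : 0 ≤ A := integral_nonneg fun x => sq_nonneg _
  have hkey : ∀ (δ : ℝ), 0 < δ → ∀ i, |∫ x, (f i x) ^ 2 ∂μ - A| ≤
      δ * A + (1 + 1 / δ) * ∫ x, (f i x - u x) ^ 2 ∂μ := by
    intro δ hδ i
    rw [hA, ← integral_sub (hf2 i) hu2, ← integral_const_mul, ← integral_const_mul,
      ← integral_add (hu2.const_mul δ) ((hd2 i).const_mul _)]
    rw [← Real.norm_eq_abs]
    refine norm_integral_le_of_norm_le ((hu2.const_mul δ).add ((hd2 i).const_mul _))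
      (Eventually.of_forall fun x => ?_)
    have h1 : f i x ^ 2 - u x ^ 2 = 2 * (u x * (f i x - u x)) + (f i x - u x) ^ 2 := by ring
    have h2 : |2 * (u x * (f i x - u x))| ≤ δ * u x ^ 2 + (1 / δ) * (f i x - u x) ^ 2 := by
      have h3 : ∀ a b : ℝ, 2 * (a * b) ≤ δ * a ^ 2 + (1 / δ) * b ^ 2 := by
        intro a b
        have h4 : 0 ≤ (1 / δ) * (δ * a - b) ^ 2 := by positivity
        have h5 : (1 / δ) * (δ * a - b) ^ 2 = δ * a ^ 2 - 2 * (a * b) + (1 / δ) * b ^ 2 := by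
          field_simp
          ring
        linarith
      rw [abs_le]
      constructor
      · have := h3 (-u x) (f i x - u x)
        have e : (-u x) ^ 2 = u x ^ 2 := by ring
        rw [e] at this
        linarith
      · exact h3 _ _
    rw [Real.norm_eq_abs, h1]
    calc |2 * (u x * (f i x - u x)) + (f i x - u x) ^ 2|
        ≤ |2 * (u x * (f i x - u x))| + |(f i x - u x) ^ 2| := abs_add_le _ _
      _ ≤ (δ * u x ^ 2 + (1 / δ) * (f i x - u x) ^ 2) + (f i x - u x) ^ 2 := by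
          rw [abs_of_nonneg (sq_nonneg (f i x - u x))]; gcongr
      _ = δ * u x ^ 2 + (1 + 1 / δ) * (f i x - u x) ^ 2 := by ring
  rw [Metric.tendsto_atTop] at hlim ⊢
  intro η hη
  set δ := η / (2 * (A + 1)) with hδ
  have hδ0 : 0 < δ := by positivity
  obtain ⟨N, hN⟩ := hlim (η / (2 * (1 + 1 / δ))) (by positivity)
  refine ⟨N, fun i hi => ?_⟩
  have h1 := hN i hi
  rw [Real.dist_eq, sub_zero, abs_of_nonneg (integral_nonneg fun x => sq_nonneg _)] at h1
  rw [Real.dist_eq]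
  have h2 := hkey δ hδ0 i
  have h3 : (1 + 1 / δ) * ∫ x, (f i x - u x) ^ 2 ∂μ < η / 2 := by
    have h4 : 0 < 1 + 1 / δ := by positivity
    calc (1 + 1 / δ) * ∫ x, (f i x - u x) ^ 2 ∂μ < (1 + 1 / δ) * (η / (2 * (1 + 1 / δ))) := by
          gcongr
      _ = η / 2 := by field_simp
  have h4 : δ * A ≤ η / 2 := by
    rw [hδ, div_mul_eq_mul_div, div_le_div_iff₀ (by positivity) (by positivity)]
    nlinarith
  linarith

theorem sq_log_ge {t : ℝ} (ht : 0 ≤ t) : -1 ≤ t ^ 2 * Real.log t := by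
  rcases ht.eq_or_lt with h | h
  · rw [← h]; norm_num
  · have h1 := Real.one_sub_inv_le_log_of_pos h
    have h2 : t ^ 2 * (1 - t⁻¹) ≤ t ^ 2 * Real.log t := by gcongr
    have h3 : t ^ 2 * (1 - t⁻¹) = t ^ 2 - t := by field_simp
    nlinarith [sq_nonneg (t - 1 / 2)]

theorem cont_sq_log : Continuous fun t : ℝ => t ^ 2 * Real.log t := by
  have : (fun t : ℝ => t ^ 2 * Real.log t) = fun t => t * (t * Real.log t) := by
    funext t; ring
  rw [this]
  exact continuous_id.mul Real.continuous_mul_log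

theorem abs_ent [IsFiniteMeasure μ] {u : X → ℝ} (hu : MemLp u 2 μ) (hu0 : ∀ x, 0 ≤ u x)
    (hu1 : ∫ x, u x ^ 2 ∂μ = 1)
    (hni : ¬ Integrable (fun x => 2 * u x ^ 2 * Real.log (u x)) μ)
    {f : ℕ → X → ℝ} (hf : ∀ i, MemLp (f i) 2 μ)
    (hlim : Tendsto (fun i => ∫ x, (f i x - u x) ^ 2 ∂μ) atTop (𝓝 0))
    {a : ℕ → ℝ} (ha : ∀ i, a i = Real.sqrt (∫ x, vv (f i) (1 / (i + 1 : ℝ)) x ^ 2 ∂μ))
    {w : ℕ → X → ℝ} (hw : ∀ i x, w i x = vv (f i) (1 / (i + 1 : ℝ)) x / a i)
    (hint : ∀ i, Integrable (fun x => w i x ^ 2 * Real.log (w i x)) μ) :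
    Tendsto a atTop (𝓝 1) ∧ ∀ K : ℝ, ∀ N : ℕ, ∃ i ≥ N,
      K ≤ ∫ x, w i x ^ 2 * Real.log (w i x) ∂μ := by
  have hε : Tendsto (fun i : ℕ => (1 / ((i : ℝ) + 1))) atTop (𝓝 0) :=
    tendsto_one_div_add_atTop_nhds_zero_nat
  have hf2 : ∀ i, Integrable (fun x => f i x ^ 2) μ := fun i => (hf i).integrable_sq
  have hlim2 := tend_sq hu hf hlim
  rw [hu1] at hlim2
  have ha1 : Tendsto a atTop (𝓝 1) := by
    have h1 : ∀ i, a i = Real.sqrt ((∫ x, f i x ^ 2 ∂μ) + (1 / ((i : ℝ) + 1)) ^ 2 * μ.real univ) := by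
      intro i
      rw [ha i]
      congr 1
      simp only [vv_sq]
      rw [integral_add (hf2 i) (integrable_const _), integral_const, smul_eq_mul]
      ring
    have h2 : Tendsto (fun i : ℕ => Real.sqrt ((∫ x, f i x ^ 2 ∂μ) +
        (1 / ((i : ℝ) + 1)) ^ 2 * μ.real univ)) atTop (𝓝 (Real.sqrt (1 + 0 ^ 2 * μ.real univ))) :=
      (hlim2.add ((hε.pow 2).mul_const _)).sqrt
    rw [show Real.sqrt (1 + 0 ^ 2 * μ.real univ) = 1 by norm_num] at h2
    exact h2.congr fun i => (h1 i).symm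
  refine ⟨ha1, fun K N => ?_⟩
  -- a.e. convergent subsequence
  have hmeas : TendstoInMeasure μ f atTop u := by
    refine tendstoInMeasure_of_tendsto_eLpNorm (p := 2) (by norm_num)
      (fun i => (hf i).aestronglyMeasurable) hu.aestronglyMeasurable ?_
    have h1 : ∀ i, eLpNorm (f i - u) 2 μ = ENNReal.ofReal (Real.sqrt (∫ x, (f i x - u x) ^ 2 ∂μ)) := by
      intro i
      have hm : MemLp (f i - u) 2 μ := (hf i).sub hu
      rw [hm.eLpNorm_eq_integral_rpow_norm (by norm_num) (by norm_num)]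
      congr 1
      rw [Real.sqrt_eq_rpow]
      congr 1
      · refine integral_congr_ae (Eventually.of_forall fun x => ?_)
        simp
      · norm_num
    simp only [h1]
    have h2 : Tendsto (fun i => ENNReal.ofReal (Real.sqrt (∫ x, (f i x - u x) ^ 2 ∂μ))) atTop
        (𝓝 (ENNReal.ofReal (Real.sqrt 0))) := ENNReal.tendsto_ofReal hlim.sqrt
    simpa using h2
  obtain ⟨ns, hns, hae⟩ := hmeas.exists_seq_tendsto_ae
  have hw_ae : ∀ᵐ x ∂μ, Tendsto (fun i => w (ns i) x) atTop (𝓝 (u x)) := by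
    filter_upwards [hae] with x hx
    have h1 : Tendsto (fun i => vv (f (ns i)) (1 / ((ns i : ℕ) + 1 : ℝ)) x / a (ns i)) atTop
        (𝓝 (Real.sqrt (u x ^ 2 + 0 ^ 2) / 1)) :=
      (((hx.pow 2).add ((hε.comp hns.tendsto_atTop).pow 2)).sqrt).div
        (ha1.comp hns.tendsto_atTop) one_ne_zero
    rw [show Real.sqrt (u x ^ 2 + 0 ^ 2) / 1 = u x by
      rw [div_one, zero_pow two_ne_zero, add_zero, Real.sqrt_sq (hu0 x)]] at h1
    exact h1.congr fun i => (hw _ x).symm
  set G : ℕ → X → ℝ≥0∞ := fun i x => ENNReal.ofReal (w (ns i) x ^ 2 * Real.log (w (ns i) x) + 1)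
    with hG
  have hGm : ∀ i, AEMeasurable (G i) μ := fun i =>
    (((hint (ns i)).aestronglyMeasurable.aemeasurable).add_const 1).ennreal_ofReal
  have hliminf : ∀ᵐ x ∂μ, liminf (fun i => G i x) atTop =
      ENNReal.ofReal (u x ^ 2 * Real.log (u x) + 1) := by
    filter_upwards [hw_ae] with x hx
    refine Tendsto.liminf_eq ?_
    exact ENNReal.tendsto_ofReal (((cont_sq_log.tendsto _).comp hx).add_const 1)
  have htop : ∫⁻ x, ENNReal.ofReal (u x ^ 2 * Real.log (u x) + 1) ∂μ = ⊤ := by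
    by_contra hne
    apply hni
    have hm : AEStronglyMeasurable (fun x => u x ^ 2 * Real.log (u x)) μ :=
      cont_sq_log.comp_aestronglyMeasurable hu.aestronglyMeasurable
    have h1 : Integrable (fun x => u x ^ 2 * Real.log (u x) + 1) μ := by
      refine ⟨hm.add aestronglyMeasurable_const, ?_⟩
      rw [hasFiniteIntegral_iff_ofReal (Eventually.of_forall fun x => by
        have := sq_log_ge (hu0 x)
        show (0 : ℝ) ≤ _
        linarith)]
      exact lt_top_iff_ne_top.2 hne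
    have h2 : Integrable (fun x => u x ^ 2 * Real.log (u x)) μ := by
      refine (h1.sub (integrable_const (1 : ℝ))).congr (Eventually.of_forall fun x => ?_)
      show u x ^ 2 * Real.log (u x) + 1 - 1 = _
      ring
    have h3 := h2.const_mul 2
    refine h3.congr (Eventually.of_forall fun x => ?_)
    show 2 * (u x ^ 2 * Real.log (u x)) = _
    ring
  have hfatou := lintegral_liminf_le' (f := G) (u := atTop) hGm
  rw [lintegral_congr_ae hliminf, htop, top_le_iff] at hfatou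
  have hev : ∀ᶠ i in atTop, ENNReal.ofReal (|K| + μ.real univ) < ∫⁻ x, G i x ∂μ := by
    refine eventually_lt_of_lt_liminf ?_
    rw [hfatou]
    exact ENNReal.ofReal_lt_top
  obtain ⟨i, hi1, hi2⟩ := (hev.and (hns.tendsto_atTop.eventually_ge_atTop N)).exists
  refine ⟨ns i, hi2, ?_⟩
  have hw0 : ∀ x, 0 ≤ w (ns i) x := by
    intro x
    rw [hw, ha]
    unfold vv
    positivity
  have h1 : ∫⁻ x, G i x ∂μ = ENNReal.ofReal
      (∫ x, (w (ns i) x ^ 2 * Real.log (w (ns i) x) + 1) ∂μ) := by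
    have hI : Integrable (fun x => w (ns i) x ^ 2 * Real.log (w (ns i) x) + 1) μ :=
      (hint (ns i)).add (integrable_const 1)
    rw [ofReal_integral_eq_lintegral_ofReal hI
      (Eventually.of_forall fun x => by
        have := sq_log_ge (hw0 x)
        show (0 : ℝ) ≤ w (ns i) x ^ 2 * Real.log (w (ns i) x) + 1
        linarith)]
  rw [h1, integral_add (hint _) (integrable_const _), integral_const, smul_eq_mul, mul_one] at hi1
  have h2 := (ENNReal.ofReal_lt_ofReal_iff_of_nonneg (by positivity)).1 hi1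
  have h3 := le_abs_self K
  linarith

end

end R2aux

end Pool.Agent.helper63.NU
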