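import Pool.Agent.helper86.NU.R2b
import Pool.Agent.helper86.NU.R2c

set_option autoImplicit false
set_option linter.all false

/-! Module R2: `ν` is invariant under biholomorphic isometries and under scaling. -/

open MeasureTheory Filter Topology Set
open scoped ContDiff Manifold Matrix ENNReal ComplexOrder

noncomputable section

namespace Pool.Agent.helper63.NU

namespace R2aux

section one

variable {n : ℕ} {M : Type*} [TopologicalSpace M] [ChartedSpace (E n) M]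
  [IsManifold 𝓘(ℂ, E n) ω M] {h : MFam n M}

omit [IsManifold 𝓘(ℂ, E n) ω M] in
theorem sm_real {f : M → ℝ} (hf : Sm n fun x => ((f x : ℝ) : ℂ)) {e : Ch n M}
    (he : e ∈ atlas (E n) M) : ContDiffOn ℝ ∞ (fun y => f (e.symm y)) e.target := by
  have := Complex.reCLM.contDiff.comp_contDiffOn (hf e he)
  exact this

omit [IsManifold 𝓘(ℂ, E n) ω M] in
theorem sm_cont {f : M → ℝ} (hf : Sm n fun x => ((f x : ℝ) : ℂ)) : Continuous f := by
  rw [continuous_iff_continuousAt]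
  intro x
  have he : chartAt (E n) x ∈ atlas (E n) M := chart_mem_atlas (E n) x
  have h1 : ContinuousOn (fun x' => f ((chartAt (E n) x).symm (chartAt (E n) x x')))
      (chartAt (E n) x).source :=
    (sm_real hf he).continuousOn.comp (chartAt (E n) x).continuousOn (chartAt (E n) x).mapsTo
  have h2 : ContinuousOn f (chartAt (E n) x).source :=
    h1.congr fun y hy => by
      show f y = f ((chartAt (E n) x).symm (chartAt (E n) x y))
      rw [(chartAt (E n) x).left_inv hy]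
  exact h2.continuousAt ((chartAt (E n) x).open_source.mem_nhds (mem_chart_source _ x))

omit [IsManifold 𝓘(ℂ, E n) ω M] in
theorem grad2_nonneg (hK : IsKahler h) (f : M → ℝ) (x : M) : 0 ≤ grad2 h f x := by
  set e := chartAt (E n) x with he0
  have he : e ∈ atlas (E n) M := chart_mem_atlas (E n) x
  have hH := (hK.pos e he _ (e.map_source (mem_chart_source _ x))).inv
  set F : E n → ℂ := fun z => ((f (e.symm z) : ℝ) : ℂ) with hF
  set a : Fin n → ℂ := fun j => dz j F (e x) with ha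
  have hdb : ∀ k, db k F (e x) = (starRingEnd ℂ) (a k) := by
    intro k
    have h1 := dz_conj F (e x) k
    have h2 : (fun z => (starRingEnd ℂ) (F z)) = F := by
      funext z
      simp [hF]
    rw [h2] at h1
    rw [ha]
    simp only
    rw [h1, Complex.conj_conj]
  have h3 := hH.posSemidef.dotProduct_mulVec_nonneg a
  have h4 : star a ⬝ᵥ (h e (e x))⁻¹ *ᵥ a =
      ∑ j, ∑ k, (h e (e x))⁻¹ k j * dz j F (e x) * db k F (e x) := by
    simp only [dotProduct, Matrix.mulVec, Finset.mul_sum]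
    rw [Finset.sum_comm]
    refine Finset.sum_congr rfl fun j _ => Finset.sum_congr rfl fun k _ => ?_
    rw [hdb]
    simp only [Pi.star_apply, RCLike.star_def, ha]
    ring
  rw [h4] at h3
  have h5 : 0 ≤ (∑ j, ∑ k, (h e (e x))⁻¹ k j * dz j F (e x) * db k F (e x)).re := by
    rw [Complex.le_def] at h3
    exact h3.1
  show 0 ≤ 4 * (∑ j, ∑ k, (h e (e x))⁻¹ k j * dz j F (e x) * db k F (e x)).re
  positivity

omit [IsManifold 𝓘(ℂ, E n) ω M] in
theorem grad2_comp {f : M → ℝ} (hf : Sm n fun x => ((f x : ℝ) : ℂ)) {g : ℝ → ℝ}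
    (hg : Differentiable ℝ g) (x : M) :
    grad2 h (fun x => g (f x)) x = (deriv g (f x)) ^ 2 * grad2 h f x := by
  set e := chartAt (E n) x with he0
  have he : e ∈ atlas (E n) M := chart_mem_atlas (E n) x
  have hx : x ∈ e.source := mem_chart_source _ x
  have hd : DifferentiableAt ℝ (fun z => f (e.symm z)) (e x) :=
    ((sm_real hf he).contDiffAt (e.open_target.mem_nhds (e.map_source hx))).differentiableAt
      (by simp)
  have h1 : ∀ j, dz j (fun z => ((g (f (e.symm z)) : ℝ) : ℂ)) (e x) =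
      ((deriv g (f x) : ℝ) : ℂ) * dz j (fun z => ((f (e.symm z) : ℝ) : ℂ)) (e x) := by
    intro j
    have := dz_real_comp (g := g) (ψ := fun z => f (e.symm z)) (y := e x) (hg _) hd j
    rw [e.left_inv hx] at this
    exact this
  have h2 : ∀ j, db j (fun z => ((g (f (e.symm z)) : ℝ) : ℂ)) (e x) =
      ((deriv g (f x) : ℝ) : ℂ) * db j (fun z => ((f (e.symm z) : ℝ) : ℂ)) (e x) := by
    intro j
    have := db_real_comp (g := g) (ψ := fun z => f (e.symm z)) (y := e x) (hg _) hd j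
    rw [e.left_inv hx] at this
    exact this
  show 4 * (∑ j, ∑ k, (h e (e x))⁻¹ k j * dz j (fun z => ((g (f (e.symm z)) : ℝ) : ℂ)) (e x) *
      db k (fun z => ((g (f (e.symm z)) : ℝ) : ℂ)) (e x)).re =
    (deriv g (f x)) ^ 2 * (4 * (∑ j, ∑ k, (h e (e x))⁻¹ k j *
      dz j (fun z => ((f (e.symm z) : ℝ) : ℂ)) (e x) *
      db k (fun z => ((f (e.symm z) : ℝ) : ℂ)) (e x)).re)
  have h3 : ∑ j, ∑ k, (h e (e x))⁻¹ k j * dz j (fun z => ((g (f (e.symm z)) : ℝ) : ℂ)) (e x) *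
      db k (fun z => ((g (f (e.symm z)) : ℝ) : ℂ)) (e x) = (((deriv g (f x)) ^ 2 : ℝ) : ℂ) *
      ∑ j, ∑ k, (h e (e x))⁻¹ k j * dz j (fun z => ((f (e.symm z) : ℝ) : ℂ)) (e x) *
      db k (fun z => ((f (e.symm z) : ℝ) : ℂ)) (e x) := by
    rw [Finset.mul_sum]
    refine Finset.sum_congr rfl fun j _ => ?_
    rw [Finset.mul_sum]
    refine Finset.sum_congr rfl fun k _ => ?_
    rw [h1, h2]
    push_cast
    ring
  rw [h3, Complex.re_ofReal_mul]
  ring

omit [IsManifold 𝓘(ℂ, E n) ω M] in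
theorem grad2_const (c : ℝ) (x : M) : grad2 h (fun _ : M => c) x = 0 := by
  unfold grad2
  simp only [dz_const, db_const, mul_zero, Finset.sum_const_zero, Complex.zero_re]

omit [IsManifold 𝓘(ℂ, E n) ω M] in
theorem sm_comp {f : M → ℝ} (hf : Sm n fun x => ((f x : ℝ) : ℂ)) {g : ℝ → ℝ}
    (hg : ContDiff ℝ ∞ g) : Sm n fun x => ((g (f x) : ℝ) : ℂ) := by
  intro e he
  exact Complex.ofRealCLM.contDiff.comp_contDiffOn (hg.comp_contDiffOn (sm_real hf he))

variable [CompactSpace M] [T2Space M] [MeasurableSpace M] [BorelSpace M] {dv : Measure M}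

theorem memLp_cont [IsFiniteMeasure dv] {w : M → ℝ} (hw : Continuous w) (p : ℝ≥0∞) :
    MemLp w p dv := by
  obtain ⟨C, hC⟩ := isCompact_univ.exists_bound_of_continuousOn hw.continuousOn
  exact MemLp.of_bound hw.aestronglyMeasurable C (Eventually.of_forall fun x => hC x (mem_univ x))

theorem int_cont [IsFiniteMeasure dv] {w : M → ℝ} (hw : Continuous w) : Integrable w dv :=
  memLp_one_iff_integrable.1 (memLp_cont hw 1)

theorem isW12_smooth (hK : IsKahler h) (hv : IsVol h dv) {w : M → ℝ}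
    (hw : Sm n fun x => ((w x : ℝ) : ℂ)) : IsW12 h dv w (∫ x, grad2 h w x ∂dv) := by
  haveI := finite_vol hK hv
  refine ⟨memLp_cont (sm_cont hw) 2, fun _ => w, fun _ => hw, by simp, fun ε hε => ⟨0, ?_⟩,
    tendsto_const_nhds⟩
  intro i _ j _
  simp only [sub_self, grad2_const, integral_zero]
  exact hε.le

theorem nu_bot (hK : IsKahler h) (hv : IsVol h dv) {u : M → ℝ} {D : ℝ} (hW : IsW12 h dv u D)
    (hu0 : ∀ x, 0 ≤ u x) (hu1 : ∫ x, u x ^ 2 ∂dv = 1)
    (hni : ¬ Integrable (fun x => 2 * u x ^ 2 * Real.log (u x)) dv) : nu h dv = ⊥ := by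
  haveI := finite_vol hK hv
  obtain ⟨hu, f, hfs, hlim, -, hD⟩ := hW
  have hfL : ∀ i, MemLp (f i) 2 dv := fun i => memLp_cont (sm_cont (hfs i)) 2
  set ε : ℕ → ℝ := fun i => 1 / ((i : ℝ) + 1) with hε
  have hε0 : ∀ i, 0 < ε i := fun i => by rw [hε]; positivity
  set a : ℕ → ℝ := fun i => Real.sqrt (∫ x, vv (f i) (ε i) x ^ 2 ∂dv) with ha
  have hgs : ∀ i, ContDiff ℝ ∞ (fun t : ℝ => Real.sqrt (t ^ 2 + ε i ^ 2)) := by
    intro i
    refine ContDiff.sqrt (by fun_prop) fun t => ?_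
    have := hε0 i
    positivity
  have hvc : ∀ i, Continuous (vv (f i) (ε i)) := fun i =>
    (hgs i).continuous.comp (sm_cont (hfs i))
  have hvol : 0 < dv.real univ := by
    by_contra h0
    have h1 : dv.real univ = 0 := le_antisymm (not_lt.1 h0) measureReal_nonneg
    have h2 : dv = 0 := by
      rw [Measure.real, ENNReal.toReal_eq_zero_iff] at h1
      rcases h1 with h1 | h1
      · exact Measure.measure_univ_eq_zero.1 h1
      · exact absurd h1 (measure_ne_top _ _)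
    rw [h2] at hu1
    simp at hu1
  have ha2 : ∀ i, a i ^ 2 = ∫ x, vv (f i) (ε i) x ^ 2 ∂dv := fun i =>
    Real.sq_sqrt (integral_nonneg fun x => sq_nonneg _)
  have ha0 : ∀ i, 0 < a i := by
    intro i
    apply Real.sqrt_pos.2
    have h1 : ε i ^ 2 * dv.real univ ≤ ∫ x, vv (f i) (ε i) x ^ 2 ∂dv := by
      have : ∫ x, (fun _ => ε i ^ 2 : M → ℝ) x ∂dv ≤ ∫ x, vv (f i) (ε i) x ^ 2 ∂dv := by
        refine integral_mono (integrable_const _) (int_cont ((hvc i).pow 2)) fun x => ?_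
        simp only [vv_sq]
        nlinarith [sq_nonneg (f i x)]
      rw [integral_const, smul_eq_mul, mul_comm] at this
      exact this
    have h2 := hε0 i
    have h3 : 0 < ε i ^ 2 * dv.real univ := by positivity
    linarith
  set g : ℕ → ℝ → ℝ := fun i t => Real.sqrt (t ^ 2 + ε i ^ 2) / a i with hg
  have hgc : ∀ i, ContDiff ℝ ∞ (g i) := fun i => (hgs i).div_const _
  set w : ℕ → M → ℝ := fun i x => g i (f i x) with hw
  have hws : ∀ i, Sm n fun x => ((w i x : ℝ) : ℂ) := fun i => sm_comp (hfs i) (hgc i)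
  have hwc : ∀ i, Continuous (w i) := fun i => sm_cont (hws i)
  have hw0 : ∀ i x, 0 ≤ w i x := by
    intro i x
    have := ha0 i
    simp only [hw, hg]
    positivity
  have hw1 : ∀ i, ∫ x, w i x ^ 2 ∂dv = 1 := by
    intro i
    have h1 : ∀ x, w i x ^ 2 = (a i ^ 2)⁻¹ * vv (f i) (ε i) x ^ 2 := by
      intro x
      simp only [hw, hg, vv, div_pow]
      rw [div_eq_mul_inv, mul_comm]
    simp only [h1]
    rw [integral_const_mul, ← ha2 i, inv_mul_cancel₀]
    have := ha0 i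
    positivity
  -- the gradient
  have hderiv : ∀ i t, (deriv (g i) t) ^ 2 ≤ (a i ^ 2)⁻¹ := by
    intro i t
    have hp : 0 < t ^ 2 + ε i ^ 2 := by have := hε0 i; positivity
    have h1 : HasDerivAt (fun t : ℝ => t ^ 2 + ε i ^ 2) (2 * t) t := by
      have := (hasDerivAt_pow 2 t).add_const (ε i ^ 2)
      simpa using this
    have h2 : HasDerivAt (g i) (2 * t / (2 * Real.sqrt (t ^ 2 + ε i ^ 2)) / a i) t :=
      (h1.sqrt hp.ne').div_const _
    rw [h2.deriv]
    have h3 : 0 < Real.sqrt (t ^ 2 + ε i ^ 2) := Real.sqrt_pos.2 hp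
    have h4 := ha0 i
    rw [mul_div_mul_left _ _ two_ne_zero, div_pow, div_pow, Real.sq_sqrt hp.le, div_le_iff₀
      (by positivity), inv_mul_cancel₀ (by positivity), div_le_one hp]
    nlinarith [hε0 i]
  have hgrad : ∀ i, ∫ x, grad2 h (w i) x ∂dv ≤ (a i ^ 2)⁻¹ * ∫ x, grad2 h (f i) x ∂dv := by
    intro i
    rw [← integral_const_mul]
    refine integral_mono_of_nonneg (Eventually.of_forall fun x => grad2_nonneg hK _ x)
      ((int_cont (continuous_grad2 hK (hfs i))).const_mul _) (Eventually.of_forall fun x => ?_)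
    show grad2 h (fun x => g i (f i x)) x ≤ _
    rw [grad2_comp (hfs i) ((hgc i).differentiable (by simp))]
    exact mul_le_mul_of_nonneg_right (hderiv i _) (grad2_nonneg hK _ x)
  -- the scalar curvature
  obtain ⟨S, hS⟩ := isCompact_univ.exists_bound_of_continuousOn (continuous_scal hK).continuousOn
  have hscal : ∀ i, ∫ x, scal h x * w i x ^ 2 ∂dv ≤ S := by
    intro i
    have h1 : ‖∫ x, scal h x * w i x ^ 2 ∂dv‖ ≤ ∫ x, S * w i x ^ 2 ∂dv := by
      refine norm_integral_le_of_norm_le ((int_cont ((hwc i).pow 2)).const_mul S)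
        (Eventually.of_forall fun x => ?_)
      rw [norm_mul, Real.norm_of_nonneg (sq_nonneg (w i x))]
      exact mul_le_mul_of_nonneg_right (hS x (mem_univ x)) (sq_nonneg _)
    rw [integral_const_mul, hw1 i, mul_one, Real.norm_eq_abs] at h1
    exact (le_abs_self _).trans h1
  have hint : ∀ i, Integrable (fun x => w i x ^ 2 * Real.log (w i x)) dv := fun i =>
    int_cont (cont_sq_log.comp (hwc i))
  obtain ⟨ha1, hK1⟩ := abs_ent hu hu0 hu1 hni hfL hlim (a := a) (fun i => rfl) (w := w)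
    (fun i x => rfl) hint
  -- conclusion
  rw [EReal.eq_bot_iff_forall_lt]
  intro B
  obtain ⟨N1, hN1⟩ := (Metric.tendsto_atTop.1 hD) 1 one_pos
  have ha4 : ∀ᶠ i in atTop, 1 / 2 < a i := ha1.eventually_const_lt (by norm_num)
  obtain ⟨N2, hN2⟩ := eventually_atTop.1 ha4
  set C0 : ℝ := -(2 * n : ℝ) - n * Real.log (4 * Real.pi * 1) + (S + 4 * (4 * (|D| + 1))) with hC0
  obtain ⟨i, hi, hKi⟩ := hK1 ((C0 - B) / 2 + 1) (max N1 N2)
  have hle : nu h dv ≤ ((W12 h dv (w i) (∫ x, grad2 h (w i) x ∂dv) 1 : ℝ) : EReal) := by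
    unfold nu
    refine iInf_le_of_le (w i) (iInf_le_of_le (∫ x, grad2 h (w i) x ∂dv) (iInf_le_of_le 1 ?_))
    exact iInf_le _ (⟨one_pos, isW12_smooth hK hv (hws i), hw0 i, hw1 i⟩ : (0 : ℝ) < 1 ∧
      IsW12 h dv (w i) (∫ x, grad2 h (w i) x ∂dv) ∧ (∀ x, 0 ≤ w i x) ∧ ∫ x, w i x ^ 2 ∂dv = 1)
  refine lt_of_le_of_lt hle ?_
  rw [EReal.coe_lt_coe_iff]
  unfold W12
  have e1 : ∫ x, 2 * w i x ^ 2 * Real.log (w i x) ∂dv =
      2 * ∫ x, w i x ^ 2 * Real.log (w i x) ∂dv := by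
    rw [← integral_const_mul]
    refine integral_congr_ae (Eventually.of_forall fun x => ?_)
    simp only
    ring
  rw [e1]
  have e2 : ∫ x, grad2 h (w i) x ∂dv ≤ 4 * (|D| + 1) := by
    have h1 := hN1 i (le_trans (le_max_left _ _) hi)
    have h2 := hN2 i (le_trans (le_max_right _ _) hi)
    rw [Real.dist_eq, abs_lt] at h1
    have h3 : ∫ x, grad2 h (f i) x ∂dv ≤ |D| + 1 := by
      have := le_abs_self D
      linarith
    have h4 : (a i ^ 2)⁻¹ ≤ 4 := by
      rw [inv_le_comm₀ (by positivity) (by norm_num)]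
      nlinarith
    have h5 : 0 ≤ ∫ x, grad2 h (f i) x ∂dv := integral_nonneg fun x => grad2_nonneg hK _ x
    calc ∫ x, grad2 h (w i) x ∂dv ≤ (a i ^ 2)⁻¹ * ∫ x, grad2 h (f i) x ∂dv := hgrad i
      _ ≤ 4 * ∫ x, grad2 h (f i) x ∂dv := mul_le_mul_of_nonneg_right h4 h5
      _ ≤ 4 * (|D| + 1) := by linarith
  have e3 := hscal i
  have e4 : -(2 * n : ℝ) - n * Real.log (4 * Real.pi * 1) +
      (1 * ((∫ x, scal h x * w i x ^ 2 ∂dv) + 4 * ∫ x, grad2 h (w i) x ∂dv) -
        2 * ∫ x, w i x ^ 2 * Real.log (w i x) ∂dv) ≤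
      C0 - 2 * ∫ x, w i x ^ 2 * Real.log (w i x) ∂dv := by
    rw [hC0]
    linarith
  linarith

end one

section two

variable {n : ℕ} {M M' : Type*} [TopologicalSpace M] [ChartedSpace (E n) M]
  [IsManifold 𝓘(ℂ, E n) ω M] [CompactSpace M] [T2Space M] [MeasurableSpace M] [BorelSpace M]
  [TopologicalSpace M'] [ChartedSpace (E n) M']
  [IsManifold 𝓘(ℂ, E n) ω M'] [CompactSpace M'] [T2Space M'] [MeasurableSpace M'] [BorelSpace M']
variable {h : MFam n M} {h' : MFam n M'} {dv : Measure M} {dv' : Measure M'} {c : ℝ}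
  {Φ : M → M'} {Ψ : M' → M}

omit [CompactSpace M] [T2Space M] [MeasurableSpace M] [BorelSpace M] [CompactSpace M']
  [T2Space M'] [MeasurableSpace M'] [BorelSpace M'] in
theorem sm_pull (hΦ : ContMDiff 𝓘(ℂ, E n) 𝓘(ℂ, E n) ω Φ) {f : M' → ℝ}
    (hf : Sm n fun x => ((f x : ℝ) : ℂ)) : Sm n fun x => ((f (Φ x) : ℝ) : ℂ) := by
  intro e he y hy
  set e' := chartAt (E n) (Φ (e.symm y)) with he'0
  have he' : e' ∈ atlas (E n) M' := chart_mem_atlas _ _
  have hy' : Φ (e.symm y) ∈ e'.source := mem_chart_source _ _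
  have hmem : y ∈ e.target ∩ e.symm ⁻¹' (Φ ⁻¹' e'.source) := ⟨hy, hy'⟩
  have h1 : ContDiffAt ℝ ∞ (fun z => e' (Φ (e.symm z))) y :=
    ((ph_analytic hΦ he he' y hmem).contDiffAt (n := ∞)).restrict_scalars ℝ
  have h2 : ContDiffAt ℝ ∞ (fun z => ((f (e'.symm z) : ℝ) : ℂ)) (e' (Φ (e.symm y))) :=
    (hf e' he').contDiffAt (e'.open_target.mem_nhds (e'.map_source hy'))
  have h3 : ContDiffAt ℝ ∞ ((fun z => ((f (e'.symm z) : ℝ) : ℂ)) ∘ fun z => e' (Φ (e.symm z))) y :=
    ContDiffAt.comp y h2 h1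
  refine (h3.congr_of_eventuallyEq ?_).contDiffWithinAt
  filter_upwards [(isOpen_ph hΦ.continuous e e').mem_nhds hmem] with z hz
  show ((f (Φ (e.symm z)) : ℝ) : ℂ) = ((f (e'.symm (e' (Φ (e.symm z)))) : ℝ) : ℂ)
  rw [e'.left_inv hz.2]

theorem pull_memLp (hΦ : ContMDiff 𝓘(ℂ, E n) 𝓘(ℂ, E n) ω Φ) (hΨ : Continuous Ψ)
    (hl : ∀ x, Ψ (Φ x) = x) (hr : ∀ y, Φ (Ψ y) = y)
    (hK : IsKahler h) (hK' : IsKahler h') (hv : IsVol h dv) (hv' : IsVol h' dv')
    (hc : 0 < c) (hiso : IsoUpTo c h h' Φ) {u : M' → ℝ} {p : ℝ≥0∞} :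
    MemLp u p dv' ↔ MemLp (fun x => u (Φ x)) p dv := by
  have he : MeasurableEmbedding Φ :=
    (Homeomorph.mk ⟨Φ, Ψ, hl, hr⟩ hΦ.continuous hΨ).measurableEmbedding
  have hcn : 0 < c ^ n := pow_pos hc n
  have h0 : ENNReal.ofReal (c ^ n) ≠ 0 := by
    rw [Ne, ENNReal.ofReal_eq_zero]; exact not_le.2 hcn
  rw [vol_eq hΦ hΨ hl hr hK hK' hv hv' hc hiso]
  have h1 : MemLp u p (ENNReal.ofReal (c ^ n) • Measure.map Φ dv) ↔ MemLp u p (Measure.map Φ dv) := by
    constructor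
    · intro hm
      have h2 := hm.smul_measure (c := (ENNReal.ofReal (c ^ n))⁻¹) (ENNReal.inv_ne_top.2 h0)
      rwa [smul_smul, ENNReal.inv_mul_cancel h0 ENNReal.ofReal_ne_top, one_smul] at h2
    · intro hm
      exact hm.smul_measure ENNReal.ofReal_ne_top
  rw [h1, he.memLp_map_measure_iff]
  rfl

/-- transport of `W^{1,2}` -/
theorem isW12_pull (hΦ : ContMDiff 𝓘(ℂ, E n) 𝓘(ℂ, E n) ω Φ) (hΨ : Continuous Ψ)
    (hl : ∀ x, Ψ (Φ x) = x) (hr : ∀ y, Φ (Ψ y) = y)
    (hK : IsKahler h) (hK' : IsKahler h') (hv : IsVol h dv) (hv' : IsVol h' dv')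
    (hc : 0 < c) (hiso : IsoUpTo c h h' Φ) {s : ℝ} (hs : s ^ 2 = c ^ n) {u : M' → ℝ} {D : ℝ}
    (hW : IsW12 h' dv' u D) : IsW12 h dv (fun x => s * u (Φ x)) (c * D) := by
  obtain ⟨hu, f, hfs, hlim, hcau, hD⟩ := hW
  have hmul : ∀ {f : M' → ℝ}, Sm n (fun x => ((f x : ℝ) : ℂ)) → ∀ x,
      grad2 h (fun x => s * f (Φ x)) x = s ^ 2 * (c * grad2 h' f (Φ x)) := by
    intro f hf x
    have h1 := grad2_comp (h := h) (sm_pull hΦ hf) (g := fun t => s * t)
      (differentiable_id.const_mul s) x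
    have h2 : deriv (fun t : ℝ => s * t) (f (Φ x)) = s := by
      have := ((hasDerivAt_id (f (Φ x))).const_mul s).deriv
      simpa using this
    rw [h2, grad2_pull hΦ hK hc hiso hf] at h1
    exact h1
  have hpull := fun F : M' → ℝ => integral_pull hΦ hΨ hl hr hK hK' hv hv' hc hiso F
  have hgint : ∀ {f : M' → ℝ}, Sm n (fun x => ((f x : ℝ) : ℂ)) →
      ∫ x, grad2 h (fun x => s * f (Φ x)) x ∂dv = c * ∫ y, grad2 h' f y ∂dv' := by
    intro f hf
    simp only [hmul hf]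
    rw [integral_const_mul, hs, hpull (fun y => c * grad2 h' f y), integral_const_mul]
  refine ⟨((pull_memLp hΦ hΨ hl hr hK hK' hv hv' hc hiso).1 hu).const_mul s,
    fun i x => s * f i (Φ x), fun i => ?_, ?_, fun ε hε => ?_, ?_⟩
  · exact sm_comp (sm_pull hΦ (hfs i)) (g := fun t => s * t) (by fun_prop)
  · have h1 : ∀ i, ∫ x, (s * f i (Φ x) - s * u (Φ x)) ^ 2 ∂dv = ∫ y, (f i y - u y) ^ 2 ∂dv' := by
      intro i
      rw [← hpull, ← hs, ← integral_const_mul]
      refine integral_congr_ae (Eventually.of_forall fun x => ?_)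
      simp only
      ring
    simp only [h1]
    exact hlim
  · obtain ⟨N, hN⟩ := hcau (ε / c) (by positivity)
    refine ⟨N, fun i hi j hj => ?_⟩
    have hsub : Sm n (fun x => ((f i x - f j x : ℝ) : ℂ)) := by
      intro e he
      have := ((hfs i) e he).sub ((hfs j) e he)
      refine this.congr fun y hy => ?_
      push_cast
      rfl
    have h1 : ∀ x, s * f i (Φ x) - s * f j (Φ x) = s * (fun y => f i y - f j y) (Φ x) := by
      intro x; simp only; ring
    simp only [h1]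
    rw [hgint hsub]
    have h2 := hN i hi j hj
    calc c * ∫ y, grad2 h' (fun x => f i x - f j x) y ∂dv' ≤ c * (ε / c) := by gcongr
      _ = ε := by field_simp
  · have h1 : ∀ i, ∫ x, grad2 h (fun x => s * f i (Φ x)) x ∂dv = c * ∫ y, grad2 h' (f i) y ∂dv' :=
      fun i => hgint (hfs i)
    simp only [h1]
    exact hD.const_mul c

theorem nu_le_of_iso (hΦ : ContMDiff 𝓘(ℂ, E n) 𝓘(ℂ, E n) ω Φ) (hΨ : Continuous Ψ)
    (hl : ∀ x, Ψ (Φ x) = x) (hr : ∀ y, Φ (Ψ y) = y)
    (hK : IsKahler h) (hK' : IsKahler h') (hv : IsVol h dv) (hv' : IsVol h' dv')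
    (hc : 0 < c) (hiso : IsoUpTo c h h' Φ) : nu h dv ≤ nu h' dv' := by
  conv_rhs => unfold nu
  refine le_iInf fun u => le_iInf fun D => le_iInf fun τ => le_iInf fun hu => ?_
  obtain ⟨hτ, hW, hu0, hu1⟩ := hu
  have hcn : 0 < c ^ n := pow_pos hc n
  set s := Real.sqrt (c ^ n) with hs0
  have hs : s ^ 2 = c ^ n := Real.sq_sqrt hcn.le
  have hsp : 0 < s := Real.sqrt_pos.2 hcn
  have hW' := isW12_pull hΦ hΨ hl hr hK hK' hv hv' hc hiso hs hW
  have hpull := fun F : M' → ℝ => integral_pull hΦ hΨ hl hr hK hK' hv hv' hc hiso F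
  have h0' : ∀ x, 0 ≤ s * u (Φ x) := fun x => mul_nonneg hsp.le (hu0 _)
  have h1' : ∫ x, (s * u (Φ x)) ^ 2 ∂dv = 1 := by
    simp only [mul_pow]
    rw [integral_const_mul, hs, hpull (fun y => u y ^ 2), hu1]
  have hpt : ∀ x, 2 * (s * u (Φ x)) ^ 2 * Real.log (s * u (Φ x)) =
      s ^ 2 * (2 * u (Φ x) ^ 2 * Real.log (u (Φ x))) + s ^ 2 * (2 * Real.log s) * u (Φ x) ^ 2 := by
    intro x
    rcases (hu0 (Φ x)).eq_or_lt with h2 | h2
    · rw [← h2]; simp
    · rw [Real.log_mul hsp.ne' h2.ne']; ring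
  have hu2 : Integrable (fun x => u (Φ x) ^ 2) dv :=
    ((pull_memLp hΦ hΨ hl hr hK hK' hv hv' hc hiso).1 hW.1).integrable_sq
  by_cases hint : Integrable (fun y => 2 * u y ^ 2 * Real.log (u y)) dv'
  · -- the competitor
    have hint' : Integrable (fun x => 2 * u (Φ x) ^ 2 * Real.log (u (Φ x))) dv := by
      rw [← memLp_one_iff_integrable] at hint ⊢
      exact (pull_memLp hΦ hΨ hl hr hK hK' hv hv' hc hiso
        (u := fun y => 2 * u y ^ 2 * Real.log (u y))).1 hint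
    have hle : nu h dv ≤ ((W12 h dv (fun x => s * u (Φ x)) (c * D) (τ / c) : ℝ) : EReal) := by
      unfold nu
      refine iInf_le_of_le (fun x => s * u (Φ x)) (iInf_le_of_le (c * D) (iInf_le_of_le (τ / c) ?_))
      exact iInf_le _ (⟨by positivity, hW', h0', h1'⟩ : (0 : ℝ) < τ / c ∧
        IsW12 h dv (fun x => s * u (Φ x)) (c * D) ∧ (∀ x, 0 ≤ s * u (Φ x)) ∧
        ∫ x, (s * u (Φ x)) ^ 2 ∂dv = 1)
    refine hle.trans (le_of_eq ?_)
    rw [EReal.coe_eq_coe_iff]
    unfold W12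
    have e1 : ∫ x, scal h x * (s * u (Φ x)) ^ 2 ∂dv = c * ∫ y, scal h' y * u y ^ 2 ∂dv' := by
      have h2 : ∀ x, scal h x * (s * u (Φ x)) ^ 2 = s ^ 2 * (c * (scal h' (Φ x) * u (Φ x) ^ 2)) := by
        intro x
        rw [scal_pull hΦ hK hK' hc hiso]; ring
      simp only [h2]
      rw [integral_const_mul, hs, hpull (fun y => c * (scal h' y * u y ^ 2)), integral_const_mul]
    have e2 : ∫ x, 2 * (s * u (Φ x)) ^ 2 * Real.log (s * u (Φ x)) ∂dv =
        (∫ y, 2 * u y ^ 2 * Real.log (u y) ∂dv') + n * Real.log c := by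
      simp only [hpt]
      rw [integral_add (hint'.const_mul _) (hu2.const_mul _), integral_const_mul,
        integral_const_mul]
      have h2 := hpull (fun y => 2 * u y ^ 2 * Real.log (u y))
      have h3 := hpull (fun y => u y ^ 2)
      rw [hu1] at h3
      have h4 : 2 * Real.log s = n * Real.log c := by
        rw [hs0, Real.log_sqrt hcn.le, Real.log_pow]; ring
      rw [hs, h2, mul_right_comm, h3, h4, one_mul]
    have e3 : Real.log (4 * Real.pi * (τ / c)) = Real.log (4 * Real.pi * τ) - Real.log c := by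
      rw [← mul_div_assoc, Real.log_div (by positivity) hc.ne']
    rw [e1, e2, e3]
    field_simp
    ring
  · -- both are `-∞`
    have hni : ¬ Integrable (fun x => 2 * (s * u (Φ x)) ^ 2 * Real.log (s * u (Φ x))) dv := by
      intro hI
      apply hint
      simp only [hpt] at hI
      have h2 := hI.sub (hu2.const_mul (s ^ 2 * (2 * Real.log s)))
      have h3 := h2.const_mul ((s ^ 2)⁻¹)
      have h4 : Integrable (fun x => 2 * u (Φ x) ^ 2 * Real.log (u (Φ x))) dv := by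
        refine h3.congr (Eventually.of_forall fun x => ?_)
        have : s ^ 2 ≠ 0 := by positivity
        simp only [Pi.sub_apply]
        field_simp
        ring
      rw [← memLp_one_iff_integrable] at h4 ⊢
      exact (pull_memLp hΦ hΨ hl hr hK hK' hv hv' hc hiso
        (u := fun y => 2 * u y ^ 2 * Real.log (u y))).2 h4
    rw [nu_bot hK hv hW' h0' h1' hni]
    exact bot_le

omit [CompactSpace M] [T2Space M] [MeasurableSpace M] [BorelSpace M] [CompactSpace M']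
  [T2Space M'] [MeasurableSpace M'] [BorelSpace M'] in
theorem iso_symm (hΦ : ContMDiff 𝓘(ℂ, E n) 𝓘(ℂ, E n) ω Φ) (hΨ : ContMDiff 𝓘(ℂ, E n) 𝓘(ℂ, E n) ω Ψ)
    (hl : ∀ x, Ψ (Φ x) = x) (hr : ∀ y, Φ (Ψ y) = y) (hc : 0 < c) (hiso : IsoUpTo c h h' Φ) :
    IsoUpTo c⁻¹ h' h Ψ := by
  intro e' he' e he y hy hy' v w
  have hx' : Φ (Ψ y) ∈ e'.source := by rwa [hr]
  set A := fderiv ℂ (fun z => e (Ψ (e'.symm z))) (e' y) with hA
  have h1 := hiso e he e' he' (Ψ y) hy' hx' (A v) (A w)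
  set B := fderiv ℂ (fun z => e' (Φ (e.symm z))) (e (Ψ y)) with hB
  have hcomp : ∀ v, B (A v) = v := by
    intro v
    have hm1 : e' y ∈ e'.target ∩ e'.symm ⁻¹' (Ψ ⁻¹' e.source) :=
      ⟨e'.map_source hy, by show Ψ (e'.symm (e' y)) ∈ e.source; rwa [e'.left_inv hy]⟩
    have hm2 : e (Ψ y) ∈ e.target ∩ e.symm ⁻¹' (Φ ⁻¹' e'.source) :=
      ⟨e.map_source hy', by show Φ (e.symm (e (Ψ y))) ∈ e'.source; rwa [e.left_inv hy']⟩
    have hd1 : DifferentiableAt ℂ (fun z => e (Ψ (e'.symm z))) (e' y) :=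
      (ph_analytic hΨ he' he _ hm1).differentiableAt
    have hpt : e (Ψ (e'.symm (e' y))) = e (Ψ y) := by rw [e'.left_inv hy]
    have hd2 : DifferentiableAt ℂ (fun z => e' (Φ (e.symm z))) (e (Ψ (e'.symm (e' y)))) := by
      rw [hpt]
      exact (ph_analytic hΦ he he' _ hm2).differentiableAt
    have hcomp := fderiv_comp (e' y) (g := fun z => e' (Φ (e.symm z)))
      (f := fun z => e (Ψ (e'.symm z))) hd2 hd1
    rw [hpt] at hcomp
    have hid : ((fun z => e' (Φ (e.symm z))) ∘ fun z => e (Ψ (e'.symm z))) =ᶠ[𝓝 (e' y)]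
        fun z => z := by
      filter_upwards [(isOpen_ph hΨ.continuous e' e).mem_nhds hm1] with z hz
      show e' (Φ (e.symm (e (Ψ (e'.symm z))))) = z
      rw [e.left_inv hz.2, hr, e'.right_inv hz.1]
    rw [hid.fderiv_eq] at hcomp
    have h3 : fderiv ℂ (fun z : E n => z) (e' y) = ContinuousLinearMap.id ℂ (E n) := fderiv_id'
    rw [h3] at hcomp
    have h4 := congrArg (fun T : E n →L[ℂ] E n => T v) hcomp
    simp only [ContinuousLinearMap.id_apply, ContinuousLinearMap.comp_apply] at h4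
    exact h4.symm
  rw [hcomp, hcomp, hr] at h1
  rw [← h1, ← mul_assoc, ← Complex.ofReal_mul, inv_mul_cancel₀ hc.ne', Complex.ofReal_one, one_mul]

end two

end R2aux

variable {n : ℕ} {M M' : Type*} [TopologicalSpace M] [ChartedSpace (E n) M]
  [IsManifold 𝓘(ℂ, E n) ω M] [CompactSpace M] [T2Space M] [MeasurableSpace M] [BorelSpace M]
  [TopologicalSpace M'] [ChartedSpace (E n) M']
  [IsManifold 𝓘(ℂ, E n) ω M'] [CompactSpace M'] [T2Space M'] [MeasurableSpace M'] [BorelSpace M']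

/-- `ν` is invariant under biholomorphic isometries and under scaling -/
theorem nu_eq_of_iso (Φ : Diffeomorph 𝓘(ℂ, E n) 𝓘(ℂ, E n) M M' ω) {h : MFam n M} {h' : MFam n M'}
    (hK : IsKahler h) (hK' : IsKahler h') {dv : Measure M} {dv' : Measure M'}
    (hv : IsVol h dv) (hv' : IsVol h' dv') {c : ℝ} (hc : 0 < c) (hiso : IsoUpTo c h h' Φ) :
    nu h dv = nu h' dv' := by
  have hl : ∀ x, Φ.symm (Φ x) = x := Φ.symm_apply_apply
  have hr : ∀ y, Φ (Φ.symm y) = y := Φ.apply_symm_apply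
  have hiso' : IsoUpTo c⁻¹ h' h Φ.symm :=
    R2aux.iso_symm Φ.contMDiff Φ.symm.contMDiff hl hr hc hiso
  exact le_antisymm
    (R2aux.nu_le_of_iso Φ.contMDiff Φ.symm.continuous hl hr hK hK' hv hv' hc hiso)
    (R2aux.nu_le_of_iso Φ.symm.contMDiff Φ.continuous hr hl hK' hK hv' hv (inv_pos.2 hc) hiso')

end Pool.Agent.helper63.NU
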