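import Pool.Agent.helper69.NU.B1
import Pool.Agent.helper41.NU.A2
import Pool.Agent.helper63.NU.Defs3
import Pool.Agent.helper63.NU.Stmt3

set_option autoImplicit false
set_option linter.all false

/-! Module R2, part a: behaviour of `|∇f|²` and of the scalar curvature under holomorphic maps. -/

open MeasureTheory Filter Topology Set
open scoped ContDiff Manifold Matrix ENNReal ComplexOrder

noncomputable section

namespace Pool.Agent.helper63.NU

namespace R2aux

variable {n : ℕ}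

/-- the matrix of the complex derivative -/
def Dm (τ : E n → E n) (y : E n) : Matrix (Fin n) (Fin n) ℂ :=
  Matrix.of fun i j => fderiv ℂ τ y (Pi.single j 1) i

def cj (D : Matrix (Fin n) (Fin n) ℂ) : Matrix (Fin n) (Fin n) ℂ := D.map (starRingEnd ℂ)

theorem smul_eq {c : ℝ} {H H' : Matrix (Fin n) (Fin n) ℂ} {τ : E n → E n} {y : E n}
    (hR : ∀ v w : E n, (c : ℂ) * ∑ j, ∑ k, H j k * v j * (starRingEnd ℂ) (w k)
      = ∑ j, ∑ k, H' j k * (fderiv ℂ τ y v) j * (starRingEnd ℂ) ((fderiv ℂ τ y w) k)) :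
    (c : ℂ) • H = (Dm τ y)ᵀ * H' * cj (Dm τ y) := by
  ext a b
  have h := hR (Pi.single a 1) (Pi.single b 1)
  have h1 : ∑ j, ∑ k, H j k * (Pi.single a 1 : E n) j * (starRingEnd ℂ) ((Pi.single b 1 : E n) k)
      = H a b := by
    rw [Finset.sum_eq_single a]
    · rw [Finset.sum_eq_single b]
      · simp
      · intro k _ hk
        simp [Pi.single_eq_of_ne hk]
      · simp
    · intro j _ hj
      simp [Pi.single_eq_of_ne hj]
    · simp
  rw [h1] at h
  rw [Matrix.smul_apply, smul_eq_mul, h, Matrix.mul_apply]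
  simp only [Matrix.mul_apply, Matrix.transpose_apply, Finset.sum_mul]
  rw [Finset.sum_comm]
  refine Finset.sum_congr rfl fun k _ => Finset.sum_congr rfl fun j _ => ?_
  simp only [Dm, cj, Matrix.of_apply, Matrix.map_apply]
  ring

theorem det_cj (D : Matrix (Fin n) (Fin n) ℂ) : (cj D).det = (starRingEnd ℂ) D.det := by
  unfold cj
  rw [← RingHom.mapMatrix_apply, ← RingHom.map_det]

theorem det_eq {c : ℝ} {H H' D : Matrix (Fin n) (Fin n) ℂ}
    (h : (c : ℂ) • H = Dᵀ * H' * cj D) :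
    c ^ n * H.det.re = ‖D.det‖ ^ 2 * H'.det.re := by
  have h1 := congrArg Matrix.det h
  rw [Matrix.det_smul, Matrix.det_mul, Matrix.det_mul, Matrix.det_transpose, det_cj,
    Fintype.card_fin] at h1
  have h2 : D.det * H'.det * (starRingEnd ℂ) D.det = ((‖D.det‖ ^ 2 : ℝ) : ℂ) * H'.det := by
    rw [mul_right_comm, Complex.mul_conj, Complex.normSq_eq_norm_sq]
  rw [h2, ← Complex.ofReal_pow] at h1
  have h3 := congrArg Complex.re h1
  rwa [Complex.re_ofReal_mul, Complex.re_ofReal_mul] at h3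

theorem pd_re {H : Matrix (Fin n) (Fin n) ℂ} (hH : H.PosDef) : 0 < H.det.re := by
  have h := hH.det_pos
  rw [Complex.lt_def] at h
  exact h.1

theorem D_unit {c : ℝ} (hc : 0 < c) {H H' D : Matrix (Fin n) (Fin n) ℂ} (hH : H.PosDef)
    (h : (c : ℂ) • H = Dᵀ * H' * cj D) : D.det ≠ 0 := by
  intro h0
  have h1 := det_eq h
  rw [h0] at h1
  have h2 : 0 < c ^ n * H.det.re := mul_pos (pow_pos hc n) (pd_re hH)
  rw [h1] at h2
  simp at h2

/-- invariance of the trace -/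
theorem trace_eq {c : ℝ} (hc : 0 < c) {H H' D L L' : Matrix (Fin n) (Fin n) ℂ} (hH : H.PosDef)
    (h : (c : ℂ) • H = Dᵀ * H' * cj D) (hL : L = Dᵀ * L' * cj D) :
    ∑ j, ∑ k, H⁻¹ k j * L j k = (c : ℂ) * ∑ j, ∑ k, H'⁻¹ k j * L' j k := by
  have hD : IsUnit D.det := (D_unit hc hH h).isUnit
  have hDt : IsUnit (Dᵀ).det := by rwa [Matrix.det_transpose]
  have hDc : IsUnit (cj D).det := by
    rw [det_cj]; exact hD.map _
  have hc0 : (c : ℂ) ≠ 0 := Complex.ofReal_ne_zero.2 hc.ne'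
  have hHu : IsUnit H.det := hH.det_pos.ne'.isUnit
  have h1 : H⁻¹ = (c : ℂ) • ((cj D)⁻¹ * (H'⁻¹ * (Dᵀ)⁻¹)) := by
    rw [← Matrix.mul_inv_rev, ← Matrix.mul_inv_rev, ← h]
    symm
    have : ((c : ℂ) • H)⁻¹ = (c : ℂ)⁻¹ • H⁻¹ := by
      apply Matrix.inv_eq_right_inv
      rw [Matrix.smul_mul, Matrix.mul_smul, smul_smul, mul_inv_cancel₀ hc0, one_smul,
        Matrix.mul_nonsing_inv _ hHu]
    rw [this, smul_smul, mul_inv_cancel₀ hc0, one_smul]
  have htr : ∀ A B : Matrix (Fin n) (Fin n) ℂ, ∑ j, ∑ k, A k j * B j k = (A * B).trace := by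
    intro A B
    rw [Finset.sum_comm]
    simp only [Matrix.trace, Matrix.diag_apply, Matrix.mul_apply]
  rw [htr, htr, h1, hL, Matrix.smul_mul, Matrix.trace_smul, smul_eq_mul]
  congr 1
  rw [Matrix.trace_mul_comm]
  have : Dᵀ * L' * cj D * ((cj D)⁻¹ * (H'⁻¹ * (Dᵀ)⁻¹)) = Dᵀ * (L' * H'⁻¹) * (Dᵀ)⁻¹ := by
    rw [← Matrix.mul_assoc (Dᵀ * L' * cj D), Matrix.mul_assoc (Dᵀ * L') (cj D),
      Matrix.mul_nonsing_inv _ hDc, Matrix.mul_one]
    simp only [Matrix.mul_assoc]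
  rw [this, Matrix.trace_mul_comm, ← Matrix.mul_assoc, Matrix.nonsing_inv_mul _ hDt,
    Matrix.one_mul, Matrix.trace_mul_comm]

/-- the local expression of `|∇f|²` -/
def gq (H : Matrix (Fin n) (Fin n) ℂ) (f : E n → ℂ) (y : E n) : ℝ :=
  4 * (∑ j, ∑ k, H⁻¹ k j * dz j f y * db k f y).re

/-- the local expression of the scalar curvature -/
def sq (h : E n → Matrix (Fin n) (Fin n) ℂ) (y : E n) : ℝ :=
  -4 * (∑ j, ∑ k, (h y)⁻¹ k j * lev (fun z => Real.log (h z).det.re) y j k).re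

theorem gq_eq {c : ℝ} (hc : 0 < c) {H H' : Matrix (Fin n) (Fin n) ℂ} (hH : H.PosDef)
    {τ : E n → E n} {y : E n} (h : (c : ℂ) • H = (Dm τ y)ᵀ * H' * cj (Dm τ y))
    (hτ : DifferentiableAt ℂ τ y) {f : E n → ℂ} (hf : DifferentiableAt ℝ f (τ y)) :
    gq H (fun z => f (τ z)) y = c * gq H' f (τ y) := by
  have h1 := trace_eq hc hH h (L := Matrix.of fun j k => dz j (fun z => f (τ z)) y *
    db k (fun z => f (τ z)) y) (L' := Matrix.of fun i l => dz i f (τ y) * db l f (τ y)) (by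
      ext j k
      simp only [Matrix.of_apply, Matrix.mul_apply, Matrix.transpose_apply, Dm, cj,
        Matrix.map_apply]
      rw [dz_comp hτ hf, db_comp hτ hf, Finset.sum_mul_sum]
      simp only [Finset.sum_mul]
      rw [Finset.sum_comm]
      refine Finset.sum_congr rfl fun l _ => Finset.sum_congr rfl fun i _ => ?_
      ring)
  simp only [Matrix.of_apply, ← mul_assoc] at h1
  unfold gq
  rw [h1, Complex.re_ofReal_mul]
  ring

theorem le2 : (2 : WithTop ℕ∞) ≤ ((⊤ : ℕ∞) : WithTop ℕ∞) :=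
  WithTop.coe_le_coe.2 (le_top : (2 : ℕ∞) ≤ ⊤)

theorem sq_eq {c : ℝ} (hc : 0 < c) {h h' : E n → Matrix (Fin n) (Fin n) ℂ} {τ : E n → E n}
    {y : E n} (hτ : AnalyticAt ℂ τ y) (hJ : AnalyticAt ℂ (fun z => (Dm τ z).det) y)
    (hR : ∀ᶠ z in 𝓝 y, (c : ℂ) • h z = (Dm τ z)ᵀ * h' (τ z) * cj (Dm τ z))
    (hH : ∀ᶠ z in 𝓝 y, (h z).PosDef) (hH' : ∀ᶠ z in 𝓝 (τ y), (h' z).PosDef)
    (hs : ContDiffAt ℝ ∞ (fun z => (h' z).det.re) (τ y)) :
    sq h y = c * sq h' (τ y) := by
  have hcont : ContinuousAt τ y := hτ.continuousAt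
  have hR0 := hR.self_of_nhds
  have hH0 := hH.self_of_nhds
  have hJ0 : (Dm τ y).det ≠ 0 := D_unit hc hH0 hR0
  have hnear : (fun z => Real.log (h z).det.re) =ᶠ[𝓝 y]
      fun z => (Real.log (‖(Dm τ z).det‖ ^ 2) + Real.log (h' (τ z)).det.re) - n * Real.log c := by
    filter_upwards [hR, hH, hcont.eventually hH'] with z h1 h2 h3
    have h4 := det_eq h1
    have h5 : 0 < c ^ n := pow_pos hc n
    have h6 := pd_re h2
    have h7 := pd_re h3
    have h8 : (Dm τ z).det ≠ 0 := D_unit hc h2 h1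
    have h9 : 0 < ‖(Dm τ z).det‖ ^ 2 := by positivity
    have h10 := congrArg Real.log h4
    rw [Real.log_mul h5.ne' h6.ne', Real.log_mul h9.ne' h7.ne', Real.log_pow] at h10
    linarith
  have hτR : ContDiffAt ℝ ∞ τ y := (hτ.contDiffAt (n := ∞)).restrict_scalars ℝ
  have hlog : ContDiffAt ℝ ∞ (fun z => Real.log (h' z).det.re) (τ y) :=
    hs.log (pd_re hH'.self_of_nhds).ne'
  have hlogτ : ContDiffAt ℝ ∞ (fun z => Real.log (h' (τ z)).det.re) y :=
    ContDiffAt.comp (g := fun z => Real.log (h' z).det.re) (f := τ) y hlog hτR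
  have hJR : ContDiffAt ℝ ∞ (fun z => Real.log (‖(Dm τ z).det‖ ^ 2)) y := by
    have h1 : ContDiffAt ℝ ∞ (fun z => (Dm τ z).det) y :=
      (hJ.contDiffAt (n := ∞)).restrict_scalars ℝ
    have h2 : ContDiffAt ℝ ∞ (fun z => ‖(Dm τ z).det‖ ^ 2) y := h1.norm_sq ℝ
    exact h2.log (by positivity)
  have hcst : ContDiffAt ℝ 2 (fun _ : E n => (n : ℝ) * Real.log c) y := contDiffAt_const
  have hl0 : lev (fun _ : E n => (n : ℝ) * Real.log c) y = 0 := by
    have := lev_re_hol (n := n) (g := fun _ => (((n : ℝ) * Real.log c : ℝ) : ℂ))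
      (y := y) analyticAt_const
    simpa only [Complex.ofReal_re] using this
  have hlev : lev (fun z => Real.log (h z).det.re) y =
      (Dm τ y)ᵀ * lev (fun z => Real.log (h' z).det.re) (τ y) * cj (Dm τ y) := by
    rw [lev_congr hnear, lev_sub ((hJR.of_le le2).add (hlogτ.of_le le2)) hcst, hl0, sub_zero,
      lev_add (hJR.of_le le2) (hlogτ.of_le le2), lev_log_normSq hJ hJ0, zero_add]
    ext j k
    rw [lev_comp hτ (ψ := fun z => Real.log (h' z).det.re) (hlog.of_le le2)]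
    simp only [Matrix.mul_apply, Matrix.transpose_apply, Dm, cj, Matrix.map_apply,
      Matrix.of_apply, Finset.sum_mul]
    rw [Finset.sum_comm]
  have h1 := trace_eq hc hH0 hR0 hlev
  unfold sq
  rw [h1, Complex.re_ofReal_mul]
  ring

section Glob

variable {M M' : Type*} [TopologicalSpace M] [ChartedSpace (E n) M]
  [IsManifold 𝓘(ℂ, E n) ω M] [TopologicalSpace M'] [ChartedSpace (E n) M']
  [IsManifold 𝓘(ℂ, E n) ω M']

theorem isOpen_ph {Φ : M → M'} (hΦ : Continuous Φ) (e : Ch n M) (e' : Ch n M') :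
    IsOpen (e.target ∩ e.symm ⁻¹' (Φ ⁻¹' e'.source)) :=
  e.symm.isOpen_inter_preimage (e'.open_source.preimage hΦ)

theorem ph_analytic {Φ : M → M'} (hΦ : ContMDiff 𝓘(ℂ, E n) 𝓘(ℂ, E n) ω Φ) {e : Ch n M}
    {e' : Ch n M'} (he : e ∈ atlas (E n) M) (he' : e' ∈ atlas (E n) M') :
    AnalyticOnNhd ℂ (fun z => e' (Φ (e.symm z))) (e.target ∩ e.symm ⁻¹' (Φ ⁻¹' e'.source)) := by
  have h1 : ContMDiffOn 𝓘(ℂ, E n) 𝓘(ℂ, E n) ω e.symm e.target :=
    contMDiffOn_symm_of_mem_maximalAtlas (IsManifold.subset_maximalAtlas he)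
  have h2 : ContMDiffOn 𝓘(ℂ, E n) 𝓘(ℂ, E n) ω e' e'.source :=
    contMDiffOn_of_mem_maximalAtlas (IsManifold.subset_maximalAtlas he')
  have h3 : ContMDiffOn 𝓘(ℂ, E n) 𝓘(ℂ, E n) ω (fun z => Φ (e.symm z)) e.target :=
    hΦ.comp_contMDiffOn h1
  have h4 : ContMDiffOn 𝓘(ℂ, E n) 𝓘(ℂ, E n) ω (fun z => e' (Φ (e.symm z)))
      (e.target ∩ e.symm ⁻¹' (Φ ⁻¹' e'.source)) :=
    h2.comp (h3.mono inter_subset_left) fun z hz => hz.2
  have h5 : ContDiffOn ℂ ω (fun z => e' (Φ (e.symm z)))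
      (e.target ∩ e.symm ⁻¹' (Φ ⁻¹' e'.source)) := contMDiffOn_iff_contDiffOn.1 h4
  exact (isOpen_ph hΦ.continuous e e').analyticOn_iff_analyticOnNhd.1 h5.analyticOn

theorem Dm_det_analytic {τ : E n → E n} {y : E n} (hτ : AnalyticAt ℂ τ y) :
    AnalyticAt ℂ (fun z => (Dm τ z).det) y := by
  have h1 := hτ.fderiv
  have h2 : (fun z => (Dm τ z).det) = fun y => ∑ σ : Equiv.Perm (Fin n),
      ((Equiv.Perm.sign σ : ℤ) : ℂ) * ∏ i, fderiv ℂ τ y (Pi.single i 1) (σ i) := by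
    funext y
    rw [Matrix.det_apply']
    rfl
  rw [h2]
  refine Finset.analyticAt_fun_sum _ fun σ _ => ?_
  refine analyticAt_const.mul ?_
  refine Finset.analyticAt_fun_prod _ fun i _ => ?_
  have h3 : AnalyticAt ℂ (fun z => (fderiv ℂ τ z) (Pi.single i 1)) y :=
    ((ContinuousLinearMap.apply ℂ (E n) (Pi.single i 1 : E n)).analyticAt _).comp h1
  exact ((ContinuousLinearMap.proj (R := ℂ) (φ := fun _ : Fin n => ℂ) (σ i)).analyticAt _).comp h3

variable {h : MFam n M} {h' : MFam n M'} {Φ : M → M'} {c : ℝ}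

theorem rel_at (hiso : IsoUpTo c h h' Φ) {e : Ch n M} {e' : Ch n M'} (he : e ∈ atlas (E n) M)
    (he' : e' ∈ atlas (E n) M') {x : M} (hx : x ∈ e.source) (hx' : Φ x ∈ e'.source) :
    (c : ℂ) • h e (e x) = (Dm (fun z => e' (Φ (e.symm z))) (e x))ᵀ * h' e' (e' (Φ x)) *
      cj (Dm (fun z => e' (Φ (e.symm z))) (e x)) :=
  smul_eq (hiso e he e' he' x hx hx')

theorem rel_at' (hiso : IsoUpTo c h h' Φ) {e : Ch n M} {e' : Ch n M'} (he : e ∈ atlas (E n) M)
    (he' : e' ∈ atlas (E n) M') {z : E n} (hz : z ∈ e.target) (hz' : Φ (e.symm z) ∈ e'.source) :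
    (c : ℂ) • h e z = (Dm (fun z => e' (Φ (e.symm z))) z)ᵀ * h' e' (e' (Φ (e.symm z))) *
      cj (Dm (fun z => e' (Φ (e.symm z))) z) := by
  have := rel_at hiso he he' (e.map_target hz) hz'
  rwa [e.right_inv hz] at this

theorem iso_id (hK : IsKahler h) : IsoUpTo 1 h h (fun x => x) := by
  intro e he e' he' x hx hx' v w
  rw [Complex.ofReal_one, one_mul]
  exact hK.trans e he e' he' x ⟨hx, hx'⟩ v w

theorem contDiffOn_detre' (hK' : IsKahler h') {e' : Ch n M'} (he' : e' ∈ atlas (E n) M') :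
    ContDiffOn ℝ ∞ (fun y => (h' e' y).det.re) e'.target := by
  have h1 := A2.contDiffOn_det (A := fun y => h' e' y) (fun j k => hK'.smooth e' he' j k)
  exact Complex.reCLM.contDiff.comp_contDiffOn h1

theorem sq_pull (hΦ : ContMDiff 𝓘(ℂ, E n) 𝓘(ℂ, E n) ω Φ) (hK : IsKahler h) (hK' : IsKahler h')
    (hc : 0 < c) (hiso : IsoUpTo c h h' Φ) {e : Ch n M} {e' : Ch n M'} (he : e ∈ atlas (E n) M)
    (he' : e' ∈ atlas (E n) M') {x : M} (hx : x ∈ e.source) (hx' : Φ x ∈ e'.source) :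
    sq (h e) (e x) = c * sq (h' e') (e' (Φ x)) := by
  have hy := e.map_source hx
  have hmem : e x ∈ e.target ∩ e.symm ⁻¹' (Φ ⁻¹' e'.source) :=
    ⟨hy, by show Φ (e.symm (e x)) ∈ e'.source; rwa [e.left_inv hx]⟩
  have hτx : e' (Φ (e.symm (e x))) = e' (Φ x) := by rw [e.left_inv hx]
  have hτ := ph_analytic hΦ he he' _ hmem
  have key := sq_eq hc (h := h e) (h' := h' e') hτ (Dm_det_analytic hτ)
    (by
      filter_upwards [(isOpen_ph hΦ.continuous e e').mem_nhds hmem] with z hz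
      exact rel_at' hiso he he' hz.1 hz.2)
    (by
      filter_upwards [e.open_target.mem_nhds hy] with z hz
      exact hK.pos e he z hz)
    (by
      rw [hτx]
      filter_upwards [e'.open_target.mem_nhds (e'.map_source hx')] with z hz
      exact hK'.pos e' he' z hz)
    (by
      rw [hτx]
      exact (contDiffOn_detre' hK' he').contDiffAt (e'.open_target.mem_nhds (e'.map_source hx')))
  rw [hτx] at key
  exact key

theorem gq_pull (hΦ : ContMDiff 𝓘(ℂ, E n) 𝓘(ℂ, E n) ω Φ) (hK : IsKahler h) 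
    (hc : 0 < c) (hiso : IsoUpTo c h h' Φ) {e : Ch n M} {e' : Ch n M'} (he : e ∈ atlas (E n) M)
    (he' : e' ∈ atlas (E n) M') {x : M} (hx : x ∈ e.source) (hx' : Φ x ∈ e'.source)
    {f : M' → ℝ} (hf : Sm n fun x => ((f x : ℝ) : ℂ)) :
    gq (h e (e x)) (fun z => ((f (Φ (e.symm z)) : ℝ) : ℂ)) (e x) =
      c * gq (h' e' (e' (Φ x))) (fun z => ((f (e'.symm z) : ℝ) : ℂ)) (e' (Φ x)) := by
  have hy := e.map_source hx
  have hmem : e x ∈ e.target ∩ e.symm ⁻¹' (Φ ⁻¹' e'.source) :=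
    ⟨hy, by show Φ (e.symm (e x)) ∈ e'.source; rwa [e.left_inv hx]⟩
  have hτx : e' (Φ (e.symm (e x))) = e' (Φ x) := by rw [e.left_inv hx]
  have hτ := ph_analytic hΦ he he' _ hmem
  have hfd : DifferentiableAt ℝ (fun z => ((f (e'.symm z) : ℝ) : ℂ)) (e' (Φ x)) :=
    ((hf e' he').contDiffAt (e'.open_target.mem_nhds (e'.map_source hx'))).differentiableAt
      (by simp)
  have key := gq_eq hc (H := h e (e x)) (H' := h' e' (e' (Φ x))) (hK.pos e he _ hy)
    (rel_at hiso he he' hx hx') hτ.differentiableAt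
    (f := fun z => ((f (e'.symm z) : ℝ) : ℂ)) (by
      show DifferentiableAt ℝ _ (e' (Φ (e.symm (e x))))
      rw [hτx]; exact hfd)
  simp only [hτx] at key
  rw [← key]
  have hnear : (fun z => ((f (Φ (e.symm z)) : ℝ) : ℂ)) =ᶠ[𝓝 (e x)]
      fun z => ((f (e'.symm (e' (Φ (e.symm z)))) : ℝ) : ℂ) := by
    filter_upwards [(isOpen_ph hΦ.continuous e e').mem_nhds hmem] with z hz
    rw [e'.left_inv hz.2]
  unfold gq
  congr 2
  refine Finset.sum_congr rfl fun j _ => Finset.sum_congr rfl fun k _ => ?_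
  rw [dz_congr hnear, db_congr hnear]

theorem scal_pull (hΦ : ContMDiff 𝓘(ℂ, E n) 𝓘(ℂ, E n) ω Φ) (hK : IsKahler h) (hK' : IsKahler h')
    (hc : 0 < c) (hiso : IsoUpTo c h h' Φ) (x : M) : scal h x = c * scal h' (Φ x) :=
  sq_pull hΦ hK hK' hc hiso (chart_mem_atlas _ x) (chart_mem_atlas _ (Φ x))
    (mem_chart_source _ x) (mem_chart_source _ (Φ x))

theorem grad2_pull (hΦ : ContMDiff 𝓘(ℂ, E n) 𝓘(ℂ, E n) ω Φ) (hK : IsKahler h)
    (hc : 0 < c) (hiso : IsoUpTo c h h' Φ) {f : M' → ℝ} (hf : Sm n fun x => ((f x : ℝ) : ℂ))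
    (x : M) : grad2 h (fun x => f (Φ x)) x = c * grad2 h' f (Φ x) :=
  gq_pull hΦ hK hc hiso (chart_mem_atlas _ x) (chart_mem_atlas _ (Φ x))
    (mem_chart_source _ x) (mem_chart_source _ (Φ x)) hf

/-- chart independence -/
theorem scal_chart (hK : IsKahler h) {e : Ch n M} (he : e ∈ atlas (E n) M) {x : M}
    (hx : x ∈ e.source) : scal h x = sq (h e) (e x) := by
  have := sq_pull (Φ := fun x : M => x) (h := h) (h' := h) contMDiff_id hK hK one_pos (iso_id hK)
    (chart_mem_atlas _ x) he (mem_chart_source _ x) hx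
  rw [one_mul] at this
  exact this

theorem grad2_chart (hK : IsKahler h) {e : Ch n M} (he : e ∈ atlas (E n) M) {x : M}
    (hx : x ∈ e.source) {f : M → ℝ} (hf : Sm n fun x => ((f x : ℝ) : ℂ)) :
    grad2 h f x = gq (h e (e x)) (fun z => ((f (e.symm z) : ℝ) : ℂ)) (e x) := by
  have := gq_pull (Φ := fun x : M => x) (h := h) (h' := h) contMDiff_id hK one_pos (iso_id hK)
    (chart_mem_atlas _ x) he (mem_chart_source _ x) hx hf
  rw [one_mul] at this
  exact this

theorem continuous_of_charts {f : M → ℝ} (hf : ∀ e ∈ atlas (E n) M, ContinuousOn f e.source) :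
    Continuous f := by
  rw [continuous_iff_continuousAt]
  intro x
  exact (hf _ (chart_mem_atlas (E n) x)).continuousAt
    ((chartAt (E n) x).open_source.mem_nhds (mem_chart_source _ x))

theorem continuous_scal (hK : IsKahler h) : Continuous (scal h) := by
  apply continuous_of_charts (n := n)
  intro e he
  have h1 : ContinuousOn (fun y => sq (h e) y) e.target := by
    have hi : ∀ j k, ContDiffOn ℝ ∞ (fun y => (h e y)⁻¹ j k) e.target := fun j k =>
      A2.contDiffOn_inv (fun a b => hK.smooth e he a b)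
        (fun y hy => (hK.pos e he y hy).det_pos.ne') j k
    have hl : ContDiffOn ℝ ∞ (fun z => Real.log (h e z).det.re) e.target :=
      (contDiffOn_detre' hK he).log fun y hy => (pd_re (hK.pos e he y hy)).ne'
    have hs : ContDiffOn ℝ ∞ (fun y => ∑ j, ∑ k, (h e y)⁻¹ k j *
        lev (fun z => Real.log (h e z).det.re) y j k) e.target :=
      ContDiffOn.sum fun j _ => ContDiffOn.sum fun k _ =>
        (hi k j).mul (contDiffOn_lev e.open_target hl j k)
    exact (Complex.continuous_re.comp_continuousOn hs.continuousOn).const_mul (-4) 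
  have h2 : ContinuousOn (fun x => sq (h e) (e x)) e.source :=
    h1.comp e.continuousOn e.mapsTo
  exact h2.congr fun x hx => scal_chart hK he hx

theorem continuous_grad2 (hK : IsKahler h) {f : M → ℝ} (hf : Sm n fun x => ((f x : ℝ) : ℂ)) :
    Continuous (grad2 h f) := by
  apply continuous_of_charts (n := n)
  intro e he
  have h1 : ContinuousOn (fun y => gq (h e y) (fun z => ((f (e.symm z) : ℝ) : ℂ)) y) e.target := by
    have hi : ∀ j k, ContDiffOn ℝ ∞ (fun y => (h e y)⁻¹ j k) e.target := fun j k =>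
      A2.contDiffOn_inv (fun a b => hK.smooth e he a b)
        (fun y hy => (hK.pos e he y hy).det_pos.ne') j k
    have hs : ContDiffOn ℝ ∞ (fun y => ∑ j, ∑ k, (h e y)⁻¹ k j *
        dz j (fun z => ((f (e.symm z) : ℝ) : ℂ)) y *
        db k (fun z => ((f (e.symm z) : ℝ) : ℂ)) y) e.target :=
      ContDiffOn.sum fun j _ => ContDiffOn.sum fun k _ =>
        ((hi k j).mul (contDiffOn_dz e.open_target (hf e he) j)).mul
          (contDiffOn_db e.open_target (hf e he) k)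
    exact (Complex.continuous_re.comp_continuousOn hs.continuousOn).const_mul 4
  have h2 : ContinuousOn (fun x => gq (h e (e x)) (fun z => ((f (e.symm z) : ℝ) : ℂ)) (e x))
      e.source := h1.comp e.continuousOn e.mapsTo
  exact h2.congr fun x hx => grad2_chart hK he hx hf

end Glob

end R2aux

end Pool.Agent.helper63.NU
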