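import Pool.Agent.helper86.NU.R2a
import Pool.Agent.helper51.NU.B3

set_option autoImplicit false
set_option linter.all false

/-! Module R2, part b: the volume measure. -/

open MeasureTheory Filter Topology Set
open scoped ContDiff Manifold Matrix ENNReal ComplexOrder

noncomputable section

namespace Pool.Agent.helper63.NU

namespace R2aux

variable {n : ℕ} {M M' : Type*} [TopologicalSpace M] [ChartedSpace (E n) M]
  [IsManifold 𝓘(ℂ, E n) ω M] [MeasurableSpace M] [BorelSpace M]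
  [TopologicalSpace M'] [ChartedSpace (E n) M']
  [IsManifold 𝓘(ℂ, E n) ω M'] [MeasurableSpace M'] [BorelSpace M']
variable {h : MFam n M} {h' : MFam n M'} {c : ℝ} {dv : Measure M} {dv' : Measure M'}

/-- `-log det h` -/
def kph {M : Type*} [TopologicalSpace M] (h : MFam n M) : Fam n M ℝ :=
  fun e y => -Real.log (h e y).det.re

omit [MeasurableSpace M] [BorelSpace M] in
theorem kph_weight (hK : IsKahler h) : IsWeight 1 (kph h) := by
  refine ⟨fun e he => ?_, fun e he e' he' x hx => ?_⟩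
  · exact ((contDiffOn_detre' hK he).log fun y hy => (pd_re (hK.pos e he y hy)).ne').neg
  · have h1 := rel_at (iso_id hK) he he' hx.1 (x := x) hx.2
    have h2 := det_eq h1
    have h3 := jac_ne_zero he he' hx.1 hx.2
    rw [one_pow, one_mul] at h2
    have h4 : (Dm (fun z => e' (e.symm z)) (e x)).det = jac e e' (e x) :=
      (jac_eq_det e e' (e x)).symm
    rw [h4] at h2
    have h5 : 0 < ‖jac e e' (e x)‖ ^ 2 := by positivity
    have h6 := pd_re (hK.pos e' he' _ (e'.map_source hx.2))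
    unfold kph
    rw [h2, Real.log_mul h5.ne' h6.ne']
    push_cast
    ring

omit [IsManifold 𝓘(ℂ, E n) ω M] in
theorem kph_dens (hK : IsKahler h) (hv : IsVol h dv) : IsDens dv (kph h) := by
  intro e he f hf
  rw [hv e he f hf]
  refine setLIntegral_congr_fun e.open_target.measurableSet fun y hy => ?_
  show _ = f (e.symm y) * ENNReal.ofReal (Real.exp (-(kph h e y)))
  unfold kph
  rw [neg_neg, Real.exp_log (pd_re (hK.pos e he y hy))]

theorem finite_vol [CompactSpace M] [T2Space M] (hK : IsKahler h) (hv : IsVol h dv) :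
    IsFiniteMeasure dv :=
  isFiniteMeasure_of_isDens (kph_weight hK) (kph_dens hK hv)

theorem meas_chart (e : Ch n M) {A : Set M} (hA : MeasurableSet A) :
    MeasurableSet (e.target ∩ e.symm ⁻¹' A) := by
  have h1 : e.target ∩ e.symm ⁻¹' A = Subtype.val '' (b3g e ⁻¹' A) := by
    ext y
    constructor
    · rintro ⟨hy, hyA⟩
      exact ⟨⟨y, hy⟩, hyA, rfl⟩
    · rintro ⟨⟨z, hz⟩, hzA, rfl⟩
      exact ⟨hz, hzA⟩
  rw [h1]
  exact (MeasurableEmbedding.subtype_coe e.open_target.measurableSet).measurableSet_image.2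
    ((b3g_emb e).measurable hA)

theorem vol_chart (hv : IsVol h dv) {e : Ch n M} (he : e ∈ atlas (E n) M) {A : Set M}
    (hA : MeasurableSet A) (hAe : A ⊆ e.source) :
    dv A = ∫⁻ y in e.target ∩ e.symm ⁻¹' A, ENNReal.ofReal (h e y).det.re := by
  have h1 := hv e he (A.indicator 1) (measurable_one.indicator hA)
  rw [lintegral_indicator_one hA, Measure.restrict_apply hA, inter_eq_left.2 hAe] at h1
  rw [h1]
  have hB := meas_chart e hA
  have h2 : ∀ y ∈ e.target, A.indicator (1 : M → ℝ≥0∞) (e.symm y) *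
      ENNReal.ofReal (h e y).det.re =
      (e.target ∩ e.symm ⁻¹' A).indicator (fun y => ENNReal.ofReal (h e y).det.re) y := by
    intro y hy
    by_cases hyA : e.symm y ∈ A
    · rw [indicator_of_mem hyA, indicator_of_mem (show y ∈ e.target ∩ e.symm ⁻¹' A from ⟨hy, hyA⟩),
        Pi.one_apply, one_mul]
    · rw [indicator_of_notMem hyA, indicator_of_notMem (fun h => hyA h.2), zero_mul]
  rw [setLIntegral_congr_fun e.open_target.measurableSet h2, setLIntegral_indicator hB]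
  congr 2
  rw [inter_assoc, inter_comm _ e.target, ← inter_assoc, inter_self]

theorem det_real (A : E n →L[ℂ] E n) :
    |(A.restrictScalars ℝ).det| = ‖(A : E n →ₗ[ℂ] E n).det‖ ^ 2 := by
  have h1 : (A.restrictScalars ℝ).det = LinearMap.det ((A : E n →ₗ[ℂ] E n).restrictScalars ℝ) := rfl
  rw [h1, LinearMap.det_restrictScalars, Algebra.norm_complex_apply, Complex.normSq_eq_norm_sq]
  exact abs_of_nonneg (sq_nonneg _)

theorem det_Dm (τ : E n → E n) (y : E n) :
    ((fderiv ℂ τ y : E n →L[ℂ] E n) : E n →ₗ[ℂ] E n).det = (Dm τ y).det := by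
  rw [← LinearMap.det_toMatrix']
  rfl

theorem vol_piece {Φ : M → M'} {Ψ : M' → M} (hΦ : ContMDiff 𝓘(ℂ, E n) 𝓘(ℂ, E n) ω Φ)
    (hl : ∀ x, Ψ (Φ x) = x) (hr : ∀ y, Φ (Ψ y) = y)
    (hK : IsKahler h) (hK' : IsKahler h') (hv : IsVol h dv) (hv' : IsVol h' dv')
    (hc : 0 < c) (hiso : IsoUpTo c h h' Φ) {e : Ch n M} {e' : Ch n M'} (he : e ∈ atlas (E n) M)
    (he' : e' ∈ atlas (E n) M') {A : Set M'} (hA : MeasurableSet A) (hAe' : A ⊆ e'.source)
    (hAe : ∀ y ∈ A, Ψ y ∈ e.source) :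
    dv' A = ENNReal.ofReal (c ^ n) * dv (Φ ⁻¹' A) := by
  have hΦm : Measurable Φ := hΦ.continuous.measurable
  have hA' : MeasurableSet (Φ ⁻¹' A) := hΦm hA
  have hsub : Φ ⁻¹' A ⊆ e.source := by
    intro x hx
    have := hAe _ hx
    rwa [hl] at this
  rw [vol_chart hv' he' hA hAe', vol_chart hv he hA' hsub]
  set τ : E n → E n := fun z => e' (Φ (e.symm z)) with hτdef
  set B : Set (E n) := e.target ∩ e.symm ⁻¹' (Φ ⁻¹' A) with hBdef
  have hBsub : B ⊆ e.target ∩ e.symm ⁻¹' (Φ ⁻¹' e'.source) := fun z hz => ⟨hz.1, hAe' hz.2⟩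
  have himg : e'.target ∩ e'.symm ⁻¹' A = τ '' B := by
    ext y
    constructor
    · rintro ⟨hy, hyA⟩
      have hs := hAe _ hyA
      refine ⟨e (Ψ (e'.symm y)), ⟨e.map_source hs, ?_⟩, ?_⟩
      · show Φ (e.symm (e (Ψ (e'.symm y)))) ∈ A
        rw [e.left_inv hs, hr]; exact hyA
      · show e' (Φ (e.symm (e (Ψ (e'.symm y))))) = y
        rw [e.left_inv hs, hr, e'.right_inv hy]
    · rintro ⟨z, hz, rfl⟩
      refine ⟨e'.map_source (hAe' hz.2), ?_⟩
      show e'.symm (e' (Φ (e.symm z))) ∈ A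
      rw [e'.left_inv (hAe' hz.2)]
      exact hz.2
  have hinj : InjOn τ B := by
    intro z hz w hw hzw
    have h1 : Φ (e.symm z) = Φ (e.symm w) := e'.injOn (hAe' hz.2) (hAe' hw.2) hzw
    have h2 : e.symm z = e.symm w := by rw [← hl (e.symm z), h1, hl]
    exact e.symm.injOn hz.1 hw.1 h2
  have hder : ∀ z ∈ B, HasFDerivWithinAt τ ((fderiv ℂ τ z).restrictScalars ℝ) B z := by
    intro z hz
    have h1 := (ph_analytic hΦ he he' z (hBsub hz)).differentiableAt
    exact (h1.hasFDerivAt.restrictScalars ℝ).hasFDerivWithinAt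
  rw [himg, lintegral_image_eq_lintegral_abs_det_fderiv_mul volume (meas_chart e hA') hder hinj,
    ← lintegral_const_mul' _ _ ENNReal.ofReal_ne_top]
  refine setLIntegral_congr_fun (meas_chart e hA') fun z hz => ?_
  have h1 := det_eq (rel_at' hiso he he' hz.1 (hAe' hz.2))
  show ENNReal.ofReal |((fderiv ℂ τ z).restrictScalars ℝ).det| *
      ENNReal.ofReal (h' e' (τ z)).det.re =
    ENNReal.ofReal (c ^ n) * ENNReal.ofReal (h e z).det.re
  rw [det_real, det_Dm, ← ENNReal.ofReal_mul (by positivity),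
    ← ENNReal.ofReal_mul (pow_pos hc n).le]
  congr 1
  exact h1.symm

theorem vol_eq [CompactSpace M'] {Φ : M → M'} {Ψ : M' → M}
    (hΦ : ContMDiff 𝓘(ℂ, E n) 𝓘(ℂ, E n) ω Φ) (hΨ : Continuous Ψ)
    (hl : ∀ x, Ψ (Φ x) = x) (hr : ∀ y, Φ (Ψ y) = y)
    (hK : IsKahler h) (hK' : IsKahler h') (hv : IsVol h dv) (hv' : IsVol h' dv')
    (hc : 0 < c) (hiso : IsoUpTo c h h' Φ) :
    dv' = ENNReal.ofReal (c ^ n) • Measure.map Φ dv := by
  set U : M' → Set M' := fun y => (chartAt (E n) y).source ∩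
    Ψ ⁻¹' (chartAt (E n) (Ψ y)).source with hU
  have hUo : ∀ y, IsOpen (U y) := fun y =>
    (chartAt (E n) y).open_source.inter ((chartAt (E n) (Ψ y)).open_source.preimage hΨ)
  obtain ⟨t, ht⟩ := CompactSpace.elim_nhds_subcover U fun y =>
    (hUo y).mem_nhds ⟨mem_chart_source _ y, mem_chart_source _ (Ψ y)⟩
  refine (Measure.ext_iff_of_biUnion_eq_univ (S := (t : Set M')) (s := U)
    t.countable_toSet ?_).2 fun y hy => ?_
  · rw [← top_eq_univ, ← ht]
    rfl
  · ext A hA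
    rw [Measure.restrict_apply hA, Measure.restrict_apply hA, Measure.smul_apply,
      Measure.map_apply hΦ.continuous.measurable (hA.inter (hUo y).measurableSet), smul_eq_mul]
    exact vol_piece hΦ hl hr hK hK' hv hv' hc hiso (chart_mem_atlas _ (Ψ y))
      (chart_mem_atlas _ y) (hA.inter (hUo y).measurableSet) (fun x hx => hx.2.1)
      (fun x hx => hx.2.2)

/-- change of variables -/
theorem integral_pull [CompactSpace M'] {Φ : M → M'} {Ψ : M' → M}
    (hΦ : ContMDiff 𝓘(ℂ, E n) 𝓘(ℂ, E n) ω Φ) (hΨ : Continuous Ψ)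
    (hl : ∀ x, Ψ (Φ x) = x) (hr : ∀ y, Φ (Ψ y) = y)
    (hK : IsKahler h) (hK' : IsKahler h') (hv : IsVol h dv) (hv' : IsVol h' dv')
    (hc : 0 < c) (hiso : IsoUpTo c h h' Φ) (F : M' → ℝ) :
    c ^ n * ∫ x, F (Φ x) ∂dv = ∫ y, F y ∂dv' := by
  have he : MeasurableEmbedding Φ :=
    (Homeomorph.mk ⟨Φ, Ψ, hl, hr⟩ hΦ.continuous hΨ).measurableEmbedding
  rw [vol_eq hΦ hΨ hl hr hK hK' hv hv' hc hiso, integral_smul_measure, he.integral_map,
    ENNReal.toReal_ofReal (pow_pos hc n).le, smul_eq_mul]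

end R2aux

end Pool.Agent.helper63.NU
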